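import Pool.Agent.H38.LR.T3997.Q120.ET.Upper

/-!
# Almost sure bounds for random sets of bounded relative entropy
-/

set_option autoImplicit false

namespace Pool.Agent.Q120.ET

open Finset MeasureTheory Filter

variable {Ω : Type*} [MeasurableSpace Ω] {μ : Measure Ω} [IsProbabilityMeasure μ] {A : Ω → Set ℕ}

theorem tsum_ne_top_of_real {f : ℕ → Set Ω} {g : ℕ → ℝ} (hg : Summable g)
    (h : ∀ᶠ n in atTop, μ.real (f n) ≤ g n) : ∑' n, μ (f n) ≠ ⊤ := by
  obtain ⟨n0, hn0⟩ := eventually_atTop.1 h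
  have h1 : Summable (fun n => μ.real (f n)) := by
    rw [← summable_nat_add_iff n0]
    refine Summable.of_nonneg_of_le (fun n => measureReal_nonneg) (fun n => hn0 (n + n0) (by omega))
      ((summable_nat_add_iff n0).2 hg)
  have h2 : ∀ n, μ (f n) = ENNReal.ofReal (μ.real (f n)) := fun n => by
    rw [Measure.real, ENNReal.ofReal_toReal (measure_ne_top μ _)]
  simp_rw [h2]
  exact h1.tsum_ofReal_ne_top

theorem le_phi {f : ℕ → ℝ} (hf : GapFunction f) : ∀ᶠ k : ℕ in atTop, (k : ℝ) / 4 ≤ f k / k := by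
  obtain ⟨ε, hε, hl⟩ := hf.lower
  filter_upwards [hl, eventually_ge_atTop 1] with k hk hk1
  have hkpos : (0 : ℝ) < k := by exact_mod_cast hk1
  rw [Real.log_pow] at hk
  rw [le_div_iff₀ hkpos]
  refine le_trans ?_ hk
  have hlog2'' : (1 : ℝ) / 2 ≤ Real.log 2 := by
    have := Real.log_two_gt_d9; linarith
  have h2 : (1 : ℝ) / 4 ≤ Real.log 2 ^ 2 := by nlinarith
  have h3 : (k : ℝ) ^ 2 * (1 / 4) ≤ k ^ 2 * Real.log 2 ^ 2 := by gcongr
  have h4 : 0 ≤ ε * (k ^ 2 * Real.log 2 ^ 2) := by positivity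
  nlinarith

/-- **No gap is longer than `f`** if the entropies are summable with the weights `k / f k`. -/
theorem all_gaps (hA : IsRandomSet A) {f d : ℕ → ℝ} (hf : GapFunction f)
    (hs : Summable (fun k : ℕ => d k * k / f k))
    (hd : ∀ᶠ k : ℕ in atTop, relEntropy μ A (block k) ≤ d k) :
    ∀ᵐ ω ∂μ, ∀ᶠ k : ℕ in atTop, ∀ x ∈ block k, ∃ n ∈ A ω, x < n ∧ (n : ℝ) ≤ x + f k := by
  classical
  obtain ⟨c, hc, hbad⟩ := bad_small hf
  have hsum : Summable (fun k : ℕ => (2 / c) * (d k * k / f k) + (8 / c) * Real.exp (-(c / 8)) ^ k) := by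
    refine (hs.mul_left _).add (Summable.mul_left _ (summable_geometric_of_lt_one (Real.exp_pos _).le ?_))
    rw [Real.exp_lt_one_iff]
    linarith
  have h1 : ∑' k, μ {ω | Bad f k (tr A (block k) ω)} ≠ ⊤ := by
    apply tsum_ne_top_of_real hsum
    filter_upwards [hbad, hd, le_phi hf, eventually_ge_atTop 2] with k h1 h2 h3 h4
    have hkpos : (0 : ℝ) < k := by
      have : 0 < k := by omega
      exact_mod_cast this
    have hk1 : (1 : ℝ) ≤ k := by
      have : 1 ≤ k := by omega
      exact_mod_cast this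
    obtain ⟨φ, hφ⟩ : ∃ φ : ℝ, φ = f k / k := ⟨_, rfl⟩
    rw [← hφ] at h1 h3
    have hφ0 : 0 < φ := lt_of_lt_of_le (by positivity) h3
    have hfφ : f k = φ * k := by rw [hφ]; field_simp
    have h5 := event_bound (μ := μ) hA (fun n hn => three_le_of_mem_block h4 hn) (Bad f k)
      (u := c * φ / 2) (by positivity) h2 h1
    refine h5.trans ?_
    rw [← Real.exp_add]
    have h6 : Real.exp (c * φ / 2 + -(c * φ)) ≤ Real.exp (-(c / 8)) ^ k := by
      rw [← Real.exp_nat_mul]
      apply Real.exp_le_exp.2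
      have := mul_le_mul_of_nonneg_left h3 hc.le
      linarith
    have h7 : (d k + Real.exp (c * φ / 2 + -(c * φ))) / (c * φ / 2) =
        2 / c * (d k * k / f k) + (2 / c) * (Real.exp (c * φ / 2 + -(c * φ)) / φ) := by
      rw [hfφ]; field_simp
    rw [h7]
    have h8 : Real.exp (c * φ / 2 + -(c * φ)) / φ ≤ 4 * Real.exp (-(c / 8)) ^ k := by
      rw [div_le_iff₀ hφ0]
      have h9 : 1 ≤ 4 * φ := by linarith
      have h10 : 0 ≤ Real.exp (-(c / 8)) ^ k := by positivity
      nlinarith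
    have h9 : (2 / c) * (Real.exp (c * φ / 2 + -(c * φ)) / φ) ≤ (2 / c) * (4 * Real.exp (-(c / 8)) ^ k) := by
      gcongr
    have h10 : (2 / c) * (4 * Real.exp (-(c / 8)) ^ k) = (8 / c) * Real.exp (-(c / 8)) ^ k := by ring
    linarith
  filter_upwards [ae_eventually_notMem h1] with ω hω
  obtain ⟨k0, hk0⟩ := eventually_atTop.1 hω
  filter_upwards [eventually_ge_atTop k0, hf.upper] with k hk hup x hx
  by_contra hcon
  push Not at hcon
  rw [block, mem_Ico] at hx
  obtain ⟨h, hh'⟩ : ∃ h : ℕ, h = hh f k := ⟨_, rfl⟩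
  have hfree : ∀ n ∈ A ω, x < n → ¬ n ≤ x + h := by
    intro n hn hxn hle
    have h2 := hcon n hn hxn
    have h3 : (n : ℝ) ≤ x + h := by exact_mod_cast hle
    have h4 : (h : ℝ) ≤ f k := by
      rw [hh']
      unfold hh
      by_cases hf0 : 0 ≤ f k
      · exact Nat.floor_le hf0
      · exfalso
        have h5 : ⌊f k⌋₊ = 0 := Nat.floor_of_nonpos (by linarith)
        rw [hh', hh, h5] at hle
        omega
    linarith
  have hp : 2 ^ (k + 1) = 2 * 2 ^ k := by rw [pow_succ]; ring
  have hp2 : 2 ^ (k + 1 + 1) = 2 * 2 ^ (k + 1) := by rw [pow_succ]; ring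
  have hle : h ≤ 2 ^ k := by
    rw [hh']
    unfold hh
    apply Nat.floor_le_of_le
    refine hup.trans ?_
    push_cast
    rw [← Real.rpow_natCast]
    exact Real.rpow_le_rpow_of_exponent_le (by norm_num) (by
      have : (0 : ℝ) ≤ k := Nat.cast_nonneg _
      linarith)
  have hgg : gg f k = h / 2 := by rw [hh']; rfl
  by_cases hcase : x + h < 2 ^ (k + 1)
  · apply hk0 k hk
    left
    refine ⟨x, mem_Ico.2 hx, ?_, ?_⟩
    · rw [← hh']
      intro n hn
      rw [mem_Ioc] at hn
      rw [block, mem_Ico]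
      omega
    · rw [← hh', Finset.disjoint_left]
      intro n hn1 hn2
      rw [mem_tr] at hn1
      rw [mem_Ioc] at hn2
      exact hfree n hn1.2 hn2.1 hn2.2
  · by_cases hcase2 : x < 2 ^ (k + 1) - h / 2
    · apply hk0 k hk
      right; left
      rw [hgg, Finset.disjoint_left]
      intro n hn1 hn2
      rw [mem_tr] at hn1
      rw [mem_Ico] at hn2
      exact hfree n hn1.2 (by omega) (by omega)
    · apply hk0 (k + 1) (by omega)
      right; right
      rw [Nat.add_sub_cancel, hgg, Finset.disjoint_left]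
      intro n hn1 hn2
      rw [mem_tr] at hn1
      rw [mem_Ico] at hn2
      exact hfree n hn1.2 (by omega) (by omega)

/-- The gap function `(1 + ε) (log 2 ^ k) ^ 2`. -/
theorem gapFunction_log {ε : ℝ} (hε : 0 < ε) :
    GapFunction (fun k : ℕ => (1 + ε) * Real.log (2 ^ k) ^ 2) := by
  have hlog2 : 0 < Real.log 2 := Real.log_pos (by norm_num)
  refine ⟨?_, ⟨4, ?_⟩, ⟨ε, hε, Eventually.of_forall (fun k => le_rfl)⟩, ?_⟩
  · intro a b hab
    have h1 : Real.log ((2 : ℝ) ^ a) ≤ Real.log ((2 : ℝ) ^ b) := by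
      rw [Real.log_pow, Real.log_pow]
      have : (a : ℝ) ≤ b := by exact_mod_cast hab
      gcongr
    have h2 : 0 ≤ Real.log ((2 : ℝ) ^ a) := by rw [Real.log_pow]; positivity
    dsimp only
    gcongr
  · filter_upwards [eventually_ge_atTop 1] with k hk
    have hk1 : (1 : ℝ) ≤ k := by exact_mod_cast hk
    rw [Real.log_pow, Real.log_pow]
    push_cast
    have h1 : (k + 1 : ℝ) * Real.log 2 ≤ 2 * (k * Real.log 2) := by nlinarith
    calc (1 + ε) * (((k : ℝ) + 1) * Real.log 2) ^ 2 ≤ (1 + ε) * (2 * (k * Real.log 2)) ^ 2 := by gcongr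
      _ = 4 * ((1 + ε) * (k * Real.log 2) ^ 2) := by ring
  · have h1 : Tendsto (fun x : ℝ => x ^ 2 * Real.exp (-(Real.log 2 / 2) * x)) atTop (nhds 0) := by
      have := Real.tendsto_pow_mul_exp_neg_atTop_nhds_zero 2
      have h2 := this.comp (tendsto_id.const_mul_atTop (show 0 < Real.log 2 / 2 by positivity))
      have h3 := h2.const_mul ((Real.log 2 / 2) ^ 2)⁻¹
      rw [mul_zero] at h3
      refine h3.congr (fun x => ?_)
      simp only [Function.comp, id]
      field_simp
    have h2 := (h1.comp tendsto_natCast_atTop_atTop).eventually_le_const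
      (show (0 : ℝ) < 1 / ((1 + ε) * Real.log 2 ^ 2) by positivity)
    filter_upwards [h2] with k hk
    simp only [Function.comp] at hk
    rw [Real.log_pow, Real.rpow_def_of_pos (by norm_num)]
    rw [le_div_iff₀ (by positivity)] at hk
    have h3 : Real.exp (Real.log 2 * (k / 2)) * Real.exp (-(Real.log 2 / 2) * k) = 1 := by
      rw [← Real.exp_add, ← Real.exp_zero]; congr 1; ring
    have h4 := mul_le_mul_of_nonneg_left hk (Real.exp_pos (Real.log 2 * (k / 2))).le
    have h5 : Real.exp (Real.log 2 * (k / 2)) * ((k : ℝ) ^ 2 * Real.exp (-(Real.log 2 / 2) * k) *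
        ((1 + ε) * Real.log 2 ^ 2)) = (1 + ε) * (k * Real.log 2) ^ 2 *
        (Real.exp (Real.log 2 * (k / 2)) * Real.exp (-(Real.log 2 / 2) * k)) := by ring
    rw [h5, h3] at h4
    linarith

/-- Long gaps exist in all blocks. -/
theorem long_gaps (hA : IsRandomSet A) {d : ℕ → ℝ} (hs : Summable (fun k : ℕ => d k / k))
    (hd : ∀ᶠ k : ℕ in atTop, relEntropy μ A (block k) ≤ d k) {ε : ℝ} (hε : 0 < ε) (hε1 : ε < 1) :
    ∀ᵐ ω ∂μ, ∀ᶠ k : ℕ in atTop, ∃ x h : ℕ, (1 - ε) * Real.log (2 ^ k) ^ 2 ≤ h ∧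
      Ioc x (x + h) ⊆ block k ∧ ∀ n ∈ A ω, ¬ (x < n ∧ n ≤ x + h) := by
  classical
  have hlog2 : 0 < Real.log 2 := Real.log_pos (by norm_num)
  obtain ⟨h, hh'⟩ : ∃ h : ℕ → ℕ, h = fun k => ⌈(1 - ε) * Real.log (2 ^ k) ^ 2⌉₊ := ⟨_, rfl⟩
  have hhk : ∀ k, h k = ⌈(1 - ε) * Real.log (2 ^ k) ^ 2⌉₊ := fun k => by rw [hh']
  obtain ⟨W, hW⟩ : ∃ W : ℕ → ℕ → Finset ℕ, W = fun k i =>
      Ioc (2 ^ k + i * (h k)) (2 ^ k + i * (h k) + h k) := ⟨_, rfl⟩
  have hWk : ∀ k i, W k i = Ioc (2 ^ k + i * (h k)) (2 ^ k + i * (h k) + h k) := fun k i => by rw [hW]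
  obtain ⟨N, hN⟩ : ∃ N : ℕ → ℕ, N = fun k => (2 ^ k - 1) / h k := ⟨_, rfl⟩
  have hNk : ∀ k, N k = (2 ^ k - 1) / h k := fun k => by rw [hN]
  obtain ⟨δ, hδ⟩ : ∃ δ : ℝ, δ = ε / 4 := ⟨_, rfl⟩
  obtain ⟨c, hc⟩ : ∃ c : ℝ, c = ε * Real.log 2 / 4 := ⟨_, rfl⟩
  have hcp : 0 < c := by rw [hc]; positivity
  -- the probability in Cramér's model
  have hq : ∀ᶠ k : ℕ in atTop, ∑ T ∈ (block k).powerset with (∀ i ∈ range (N k), ¬ Disjoint T (W k i)),
      cramerOn (block k) T ≤ Real.exp (-(c * k)) := by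
    obtain ⟨k1, hk1⟩ := exists_nat_ge ((1 + δ) / (δ * Real.log 2))
    obtain ⟨k2, hk2⟩ := exists_nat_ge (8 / (ε * Real.log 2 ^ 2))
    have hlim : ∀ᶠ k : ℕ in atTop, 4 * ((1 - ε) * (k * Real.log 2) ^ 2 + 1) ≤ Real.exp (c * k) := by
      have h1 : Tendsto (fun x : ℝ => x ^ 2 * Real.exp (-x)) atTop (nhds 0) := by
        simpa using Real.tendsto_pow_mul_exp_neg_atTop_nhds_zero 2
      have h2 := (h1.comp (tendsto_natCast_atTop_atTop.const_mul_atTop hcp)).eventually_le_const
        (show (0 : ℝ) < c ^ 2 / (8 * Real.log 2 ^ 2) by positivity)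
      have h3 : Tendsto (fun k : ℕ => Real.exp (c * k)) atTop atTop :=
        Real.tendsto_exp_atTop.comp (tendsto_natCast_atTop_atTop.const_mul_atTop hcp)
      filter_upwards [h2, h3.eventually_ge_atTop 8] with k hk hk8
      simp only [Function.comp] at hk
      have h4 : Real.exp (c * k) * Real.exp (-(c * k)) = 1 := by
        rw [← Real.exp_add, ← Real.exp_zero]; congr 1; ring
      rw [le_div_iff₀ (by positivity)] at hk
      have h5 := mul_le_mul_of_nonneg_left hk (Real.exp_pos (c * k)).le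
      have h6 : Real.exp (c * k) * ((c * (k : ℝ)) ^ 2 * Real.exp (-(c * k)) * (8 * Real.log 2 ^ 2)) =
          8 * (c ^ 2 * (k * Real.log 2) ^ 2) * (Real.exp (c * k) * Real.exp (-(c * k))) := by ring
      rw [h6, h4, mul_one] at h5
      have h7 : c ^ 2 * (8 * (k * Real.log 2) ^ 2) ≤ c ^ 2 * Real.exp (c * k) := by linarith
      have h8 : 8 * ((k : ℝ) * Real.log 2) ^ 2 ≤ Real.exp (c * k) :=
        le_of_mul_le_mul_left h7 (by positivity)
      have h9 : (1 - ε) * ((k : ℝ) * Real.log 2) ^ 2 ≤ (k * Real.log 2) ^ 2 := by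
        have : 0 ≤ ((k : ℝ) * Real.log 2) ^ 2 := by positivity
        nlinarith
      linarith
    have hlim2 : ∀ᶠ k : ℕ in atTop, Real.exp (c * k) ≤ 2 ^ k / 2 := by
      have h1 : Tendsto (fun k : ℕ => Real.exp ((Real.log 2 - c) * k)) atTop atTop := by
        apply Real.tendsto_exp_atTop.comp
        apply tendsto_natCast_atTop_atTop.const_mul_atTop
        rw [hc]; nlinarith
      filter_upwards [h1.eventually_ge_atTop 2] with k hk
      have h2 : Real.exp ((Real.log 2 - c) * k) * Real.exp (c * k) = 2 ^ k := by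
        rw [← Real.exp_add]
        have : (Real.log 2 - c) * k + c * k = k * Real.log 2 := by ring
        rw [this, Real.exp_nat_mul, Real.exp_log (by norm_num)]
      have h3 := mul_le_mul_of_nonneg_right hk (Real.exp_pos (c * k)).le
      rw [h2] at h3
      linarith
    filter_upwards [eventually_ge_atTop (k1 + k2 + 3), hlim, hlim2] with k hk hlim hlim2
    have hkpos : (0 : ℝ) < k := by
      have : 0 < k := by omega
      exact_mod_cast this
    have hkr1 : (1 + δ) / (δ * Real.log 2) ≤ k := by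
      have : (k1 : ℝ) ≤ k := by
        have : k1 ≤ k := by omega
        exact_mod_cast this
      linarith
    have hkr2 : 8 / (ε * Real.log 2 ^ 2) ≤ k := by
      have : (k2 : ℝ) ≤ k := by
        have : k2 ≤ k := by omega
        exact_mod_cast this
      linarith
    have hhlow : (1 - ε) * (k * Real.log 2) ^ 2 ≤ h k := by
      rw [hhk, Real.log_pow]; exact Nat.le_ceil _
    have hhup : (h k : ℝ) ≤ (1 - ε) * (k * Real.log 2) ^ 2 + 1 := by
      rw [hhk, Real.log_pow]
      exact (Nat.ceil_lt_add_one (by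
        have : 0 ≤ 1 - ε := by linarith
        positivity)).le
    have hhpos : 0 < h k := by
      have : (0 : ℝ) < h k := lt_of_lt_of_le (by
        have : 0 < 1 - ε := by linarith
        positivity) hhlow
      exact_mod_cast this
    have hpow1 : 1 ≤ 2 ^ k := Nat.one_le_two_pow
    have hNh : N k * h k ≤ 2 ^ k - 1 := by rw [hNk]; exact Nat.div_mul_le_self _ _
    have hsub : ∀ i ∈ range (N k), W k i ⊆ block k := by
      intro i hi n hn
      have h1 : (i + 1) * h k ≤ N k * h k := Nat.mul_le_mul_right _ (mem_range.1 hi)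
      rw [hWk, mem_Ioc] at hn
      rw [block, mem_Ico, pow_succ]
      have h2 : (i + 1) * h k = i * h k + h k := by ring
      omega
    obtain ⟨w, hw⟩ : ∃ w : ℝ, w = Real.exp (-((1 + δ) * h k / (k * Real.log 2))) := ⟨_, rfl⟩
    have hδp : 0 < δ := by rw [hδ]; positivity
    have hNpos' : (2 : ℝ) ^ k / 2 ≤ (N k + 1) * h k := by
      have h1 := Nat.lt_div_mul_add (a := 2 ^ k - 1) (b := h k) hhpos
      rw [← hNk] at h1
      have h2 : 2 ^ k ≤ N k * h k + h k := by omega
      have h3 : (2 : ℝ) ^ k ≤ N k * h k + h k := by exact_mod_cast h2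
      have h4 : (0 : ℝ) < 2 ^ k := by positivity
      linarith
    have hhsmall : 4 * (h k : ℝ) ≤ Real.exp (c * k) := by linarith
    have hNh2 : (2 : ℝ) ^ k / 4 ≤ N k * h k := by
      have h1 := Nat.lt_div_mul_add (a := 2 ^ k - 1) (b := h k) hhpos
      rw [← hNk] at h1
      have h2 : 2 ^ k ≤ N k * h k + h k := by omega
      have h3 : (2 : ℝ) ^ k ≤ N k * h k + h k := by exact_mod_cast h2
      linarith
    have hNpos : 0 < N k := by
      by_contra hcon
      have h0 : N k = 0 := by omega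
      rw [h0] at hNh2
      have h4 : (0 : ℝ) < 2 ^ k := by positivity
      push_cast at hNh2
      linarith
    have hb := no_free_window (fun n hn => three_le_of_mem_block (by omega) hn) (N k) (W k) hsub
      (by
        intro i _ j _ hij
        rw [hWk, hWk, Finset.disjoint_left]
        intro n hn1 hn2
        rw [mem_Ioc] at hn1 hn2
        rcases lt_or_gt_of_ne hij with h2 | h2
        · have h3 : (i + 1) * h k ≤ j * h k := Nat.mul_le_mul_right _ h2
          have h4 : (i + 1) * h k = i * h k + h k := by ring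
          omega
        · have h3 : (j + 1) * h k ≤ i * h k := Nat.mul_le_mul_right _ h2
          have h4 : (j + 1) * h k = j * h k + h k := by ring
          omega)
      (w := w) (by rw [hw]; exact Real.exp_pos _) hNpos
      (by
        intro i hi
        have h1 := le_prod_window (k := k) (by omega) (hsub i hi) hδp (by
          rw [div_le_iff₀ (by positivity)] at hkr1
          linarith)
        rw [hw]
        refine le_trans (le_of_eq ?_) h1
        rw [hWk, Nat.card_Ioc, Nat.add_sub_cancel_left])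
    refine hb.trans ?_
    rw [div_le_iff₀ (by rw [hw]; positivity)]
    have h1 : (1 + δ) * h k / (k * Real.log 2) ≤ (1 - ε / 2) * (k * Real.log 2) := by
      rw [div_le_iff₀ (by positivity)]
      have h2 : (1 + δ) * h k ≤ (1 + δ) * ((1 - ε) * (k * Real.log 2) ^ 2 + 1) := by gcongr
      have h3 : (1 + δ) * (1 - ε) ≤ 1 - 3 * ε / 4 := by rw [hδ]; nlinarith
      have h4 : (1 + δ) ≤ ε / 4 * (k * Real.log 2) ^ 2 := by
        have h5 : 8 ≤ k * (ε * Real.log 2 ^ 2) := by
          rwa [div_le_iff₀ (by positivity)] at hkr2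
        have h6 : (1 : ℝ) ≤ k := by
          have : 1 ≤ k := by omega
          exact_mod_cast this
        have h7 : 1 + δ ≤ 2 := by rw [hδ]; linarith
        have h8 : 0 < ε * Real.log 2 ^ 2 := by positivity
        nlinarith
      have h5 : 0 ≤ (k * Real.log 2) ^ 2 := by positivity
      nlinarith
    have h2 : Real.exp (-((1 - ε / 2) * (k * Real.log 2))) ≤ w := by
      rw [hw]
      exact Real.exp_le_exp.2 (by linarith)
    have h3 : Real.exp (-((1 - ε / 2) * (k * Real.log 2))) * 2 ^ k = Real.exp (2 * (c * k)) := by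
      have h4 : (2 : ℝ) ^ k = Real.exp (k * Real.log 2) := by
        rw [Real.exp_nat_mul, Real.exp_log (by norm_num)]
      rw [h4, ← Real.exp_add, hc]
      congr 1; ring
    have h4 : Real.exp (2 * (c * k)) = Real.exp (c * k) * Real.exp (c * k) := by
      rw [← Real.exp_add]; congr 1; ring
    have h5 : (4 * (h k : ℝ)) * Real.exp (c * k) ≤ w * 2 ^ k := by
      calc (4 * (h k : ℝ)) * Real.exp (c * k) ≤ Real.exp (c * k) * Real.exp (c * k) := by gcongr
        _ = Real.exp (-((1 - ε / 2) * (k * Real.log 2))) * 2 ^ k := by rw [h3, h4]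
        _ ≤ w * 2 ^ k := by gcongr
    have h6 : w * 2 ^ k ≤ w * (4 * (N k * h k)) := by
      apply mul_le_mul_of_nonneg_left _ (by rw [hw]; positivity)
      linarith
    have h7 : (4 * (h k : ℝ)) * Real.exp (c * k) ≤ (4 * (h k : ℝ)) * (N k * w) := by
      calc _ ≤ w * (4 * (N k * h k)) := h5.trans h6
        _ = _ := by ring
    have h8 : Real.exp (c * k) ≤ N k * w := by
      have : (0 : ℝ) < 4 * h k := by positivity
      exact le_of_mul_le_mul_left h7 this
    have h9 : Real.exp (-(c * k)) * Real.exp (c * k) = 1 := by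
      rw [← Real.exp_add, ← Real.exp_zero]; congr 1; ring
    calc (1 : ℝ) = Real.exp (-(c * k)) * Real.exp (c * k) := h9.symm
      _ ≤ Real.exp (-(c * k)) * (N k * w) := by gcongr
  have hsum : Summable (fun k : ℕ => (2 / c) * (d k / k) + (2 / c) * Real.exp (-(c / 2)) ^ k) := by
    refine (hs.mul_left _).add (Summable.mul_left _ (summable_geometric_of_lt_one (Real.exp_pos _).le ?_))
    rw [Real.exp_lt_one_iff]
    linarith
  have h1 : ∑' k, μ {ω | ∀ i ∈ range (N k), ¬ Disjoint (tr A (block k) ω) (W k i)} ≠ ⊤ := by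
    apply tsum_ne_top_of_real hsum
    filter_upwards [hq, hd, eventually_ge_atTop 2] with k h1 h2 h4
    have hk1 : (1 : ℝ) ≤ k := by
      have : 1 ≤ k := by omega
      exact_mod_cast this
    have hkpos : (0 : ℝ) < k := by linarith
    have h5 := event_bound (μ := μ) hA (fun n hn => three_le_of_mem_block h4 hn)
      (fun T => ∀ i ∈ range (N k), ¬ Disjoint T (W k i)) (u := c * k / 2) (by positivity) h2 h1
    refine h5.trans ?_
    rw [← Real.exp_add]
    have h6 : Real.exp (c * k / 2 + -(c * k)) = Real.exp (-(c / 2)) ^ k := by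
      rw [← Real.exp_nat_mul]
      congr 1; ring
    rw [h6]
    have h7 : (d k + Real.exp (-(c / 2)) ^ k) / (c * k / 2) =
        2 / c * (d k / k) + (2 / c) * (Real.exp (-(c / 2)) ^ k / k) := by
      field_simp
    rw [h7]
    have h8 : Real.exp (-(c / 2)) ^ k / k ≤ Real.exp (-(c / 2)) ^ k :=
      div_le_self (by positivity) hk1
    have h9 : (2 / c) * (Real.exp (-(c / 2)) ^ k / k) ≤ (2 / c) * Real.exp (-(c / 2)) ^ k := by gcongr
    linarith
  filter_upwards [ae_eventually_notMem h1] with ω hω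
  filter_upwards [hω] with k hk
  simp only [Set.mem_ofPred_eq, not_forall, not_not] at hk
  obtain ⟨i, hi, hdis⟩ := hk
  have h3 : N k * h k ≤ 2 ^ k - 1 := by rw [hNk]; exact Nat.div_mul_le_self _ _
  have hpow1 : 1 ≤ 2 ^ k := Nat.one_le_two_pow
  have hsub : Ioc (2 ^ k + i * h k) (2 ^ k + i * h k + h k) ⊆ block k := by
    intro n hn
    have h1 : (i + 1) * h k ≤ N k * h k := Nat.mul_le_mul_right _ (mem_range.1 hi)
    rw [mem_Ioc] at hn
    rw [block, mem_Ico, pow_succ]
    have h2 : (i + 1) * h k = i * h k + h k := by ring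
    omega
  refine ⟨2 ^ k + i * h k, h k, by rw [hhk]; exact Nat.le_ceil _, hsub, ?_⟩
  rw [hWk, Finset.disjoint_left] at hdis
  intro n hn hcon
  exact hdis (mem_tr.2 ⟨hsub (mem_Ioc.2 hcon), hn⟩) (mem_Ioc.2 hcon)

end Pool.Agent.Q120.ET
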