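import Mathlib

/-!
# Random sets with bounded relative entropy with respect to Cramér's model: finite part
-/

set_option autoImplicit false

namespace Pool.Agent.Q120.ET

open Finset

/-- The probability of `A ∩ B = T` in Cramér's model. -/
noncomputable def cramerOn (B T : Finset ℕ) : ℝ :=
  (∏ n ∈ T, 1 / Real.log n) * ∏ n ∈ B \ T, (1 - 1 / Real.log n)

theorem sum_cramerOn (B : Finset ℕ) : ∑ T ∈ B.powerset, cramerOn B T = 1 := by
  unfold cramerOn
  rw [← prod_add]
  apply prod_eq_one
  intro n _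
  ring

theorem one_lt_log {n : ℕ} (hn : 3 ≤ n) : 1 < Real.log n := by
  rw [Real.lt_log_iff_exp_lt (by positivity)]
  have h1 : (3 : ℝ) ≤ n := by exact_mod_cast hn
  exact lt_of_lt_of_le (lt_trans Real.exp_one_lt_d9 (by norm_num)) h1

theorem cramerOn_pos {B T : Finset ℕ} (hB : ∀ n ∈ B, 3 ≤ n) (hT : T ⊆ B) : 0 < cramerOn B T := by
  unfold cramerOn
  apply mul_pos
  · apply prod_pos
    intro n hn
    have := one_lt_log (hB n (hT hn))
    positivity
  · apply prod_pos
    intro n hn
    have h1 := one_lt_log (hB n (mem_sdiff.1 hn).1)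
    have : 1 / Real.log n < 1 := by
      rw [div_lt_one (by linarith)]; exact h1
    linarith

/-- The probability that the window `W ⊆ B` is free in Cramér's model. -/
theorem sum_free {B W : Finset ℕ} (hW : W ⊆ B) :
    ∑ T ∈ B.powerset with Disjoint T W, cramerOn B T = ∏ n ∈ W, (1 - 1 / Real.log n) := by
  classical
  have h1 : (B.powerset.filter (fun T => Disjoint T W)) = (B \ W).powerset := by
    ext T
    rw [mem_filter, mem_powerset, mem_powerset, subset_sdiff]
  rw [h1]
  have h2 : ∀ T ∈ (B \ W).powerset, cramerOn B T = cramerOn (B \ W) T * ∏ n ∈ W, (1 - 1 / Real.log n) := by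
    intro T hT
    rw [mem_powerset] at hT
    unfold cramerOn
    rw [mul_assoc]
    congr 1
    have h3 : B \ T = ((B \ W) \ T) ∪ W := by
      ext n
      simp only [mem_sdiff, mem_union]
      constructor
      · rintro ⟨h4, h5⟩
        by_cases h6 : n ∈ W
        · exact Or.inr h6
        · exact Or.inl ⟨⟨h4, h6⟩, h5⟩
      · rintro (⟨⟨h4, _⟩, h5⟩ | h6)
        · exact ⟨h4, h5⟩
        · refine ⟨hW h6, fun h7 => ?_⟩
          exact (mem_sdiff.1 (hT h7)).2 h6
    rw [h3, prod_union]
    rw [Finset.disjoint_left]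
    intro n hn1 hn2
    exact (mem_sdiff.1 (mem_sdiff.1 hn1).1).2 hn2
  rw [sum_congr rfl h2, ← sum_mul, sum_cramerOn, one_mul]

/-- Young's inequality for `x log x`. -/
theorem young {p q s : ℝ} (hp : 0 ≤ p) (hq : 0 < q) :
    s * p - q * Real.exp (s - 1) ≤ p * Real.log (p / q) := by
  rcases hp.eq_or_lt with h | h
  · rw [← h]
    have := Real.exp_pos (s - 1)
    simp only [mul_zero, zero_sub, zero_div, Real.log_zero]
    nlinarith
  · have h1 : Real.log (q * Real.exp (s - 1) / p) ≤ q * Real.exp (s - 1) / p - 1 :=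
      Real.log_le_sub_one_of_pos (by positivity)
    rw [Real.log_div (by positivity) h.ne', Real.log_mul hq.ne' (Real.exp_ne_zero _), Real.log_exp] at h1
    rw [Real.log_div h.ne' hq.ne']
    have h2 := mul_le_mul_of_nonneg_left h1 h.le
    have h3 : p * (q * Real.exp (s - 1) / p - 1) = q * Real.exp (s - 1) - p := by field_simp
    rw [h3] at h2
    nlinarith

/-- The main inequality: an event which is unlikely in Cramér's model is unlikely in any model with
bounded relative entropy. -/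
theorem entropy_bound {B : Finset ℕ} (hB : ∀ n ∈ B, 3 ≤ n) (p : Finset ℕ → ℝ)
    (hp : ∀ T ∈ B.powerset, 0 ≤ p T) (hp1 : ∑ T ∈ B.powerset, p T = 1)
    (F : Finset ℕ → Prop) [DecidablePred F] (u : ℝ) :
    u * ∑ T ∈ B.powerset with F T, p T - Real.exp u * ∑ T ∈ B.powerset with F T, cramerOn B T ≤
      ∑ T ∈ B.powerset, p T * Real.log (p T / cramerOn B T) := by
  have hq : ∀ T ∈ B.powerset, 0 < cramerOn B T := fun T hT => cramerOn_pos hB (mem_powerset.1 hT)
  have h1 : ∀ T ∈ B.powerset, (if F T then u * p T - Real.exp u * cramerOn B T else 0) +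
      (p T - cramerOn B T) ≤ p T * Real.log (p T / cramerOn B T) := by
    intro T hT
    split_ifs with h
    · have h2 := young (s := u + 1) (hp T hT) (hq T hT)
      rw [add_sub_cancel_right] at h2
      have h3 := hq T hT
      nlinarith [Real.exp_pos u]
    · have h2 := young (s := 1) (hp T hT) (hq T hT)
      rw [sub_self, Real.exp_zero] at h2
      linarith
  have h2 := sum_le_sum h1
  rw [sum_add_distrib, sum_sub_distrib, hp1, sum_cramerOn, sub_self, add_zero, ← sum_filter,
    sum_sub_distrib, ← mul_sum, ← mul_sum] at h2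
  exact h2

/-- The second moment method in Cramér's model. -/
theorem no_free_window {B : Finset ℕ} (hB : ∀ n ∈ B, 3 ≤ n) (N : ℕ) (W : ℕ → Finset ℕ)
    (hW : ∀ i ∈ range N, W i ⊆ B)
    (hd : ∀ i ∈ range N, ∀ j ∈ range N, i ≠ j → Disjoint (W i) (W j)) {w : ℝ} (hw : 0 < w)
    (hN : 0 < N) (hww : ∀ i ∈ range N, w ≤ ∏ n ∈ W i, (1 - 1 / Real.log n)) :
    ∑ T ∈ B.powerset with (∀ i ∈ range N, ¬ Disjoint T (W i)), cramerOn B T ≤ 1 / (N * w) := by
  classical
  obtain ⟨a, ha⟩ : ∃ a : ℕ → ℝ, a = fun i => ∏ n ∈ W i, (1 - 1 / Real.log n) := ⟨_, rfl⟩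
  have ha' : ∀ i, a i = ∏ n ∈ W i, (1 - 1 / Real.log n) := fun i => by rw [ha]
  have hq : ∀ T ∈ B.powerset, 0 < cramerOn B T := fun T hT => cramerOn_pos hB (mem_powerset.1 hT)
  obtain ⟨m, hm⟩ : ∃ m : ℝ, m = ∑ i ∈ range N, a i := ⟨_, rfl⟩
  have hN' : (0 : ℝ) < N := by exact_mod_cast hN
  have hmw : N * w ≤ m := by
    have h1 := card_nsmul_le_sum (range N) a w (fun i hi => by rw [ha']; exact hww i hi)
    rw [card_range, nsmul_eq_mul] at h1
    rw [hm]; exact h1
  have hm0 : 0 < m := lt_of_lt_of_le (by positivity) hmw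
  have ha0 : ∀ i ∈ range N, 0 < a i := fun i hi => lt_of_lt_of_le hw (by rw [ha']; exact hww i hi)
  let Z : Finset ℕ → ℝ := fun T => ∑ i ∈ range N, if Disjoint T (W i) then 1 else 0
  have hE1 : ∀ V : Finset ℕ, V ⊆ B → ∑ T ∈ B.powerset, cramerOn B T * (if Disjoint T V then 1 else 0) =
      ∏ n ∈ V, (1 - 1 / Real.log n) := by
    intro V hV
    rw [← sum_free hV, sum_filter]
    refine sum_congr rfl (fun T _ => ?_)
    split_ifs <;> ring
  have hZ1 : ∑ T ∈ B.powerset, cramerOn B T * Z T = m := by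
    simp only [Z]
    simp_rw [mul_sum]
    rw [sum_comm, hm]
    refine sum_congr rfl (fun i hi => ?_)
    rw [hE1 _ (hW i hi), ha']
  have hZ2 : ∑ T ∈ B.powerset, cramerOn B T * Z T ^ 2 ≤ m + m ^ 2 := by
    have h1 : ∀ T, Z T ^ 2 = ∑ i ∈ range N, ∑ j ∈ range N,
        (if Disjoint T (W i ∪ W j) then (1 : ℝ) else 0) := by
      intro T
      simp only [Z]
      rw [sq, sum_mul_sum]
      refine sum_congr rfl (fun i _ => sum_congr rfl (fun j _ => ?_))
      by_cases h1 : Disjoint T (W i) <;> by_cases h2 : Disjoint T (W j) <;>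
        simp [h1, h2, disjoint_union_right]
    simp_rw [h1, mul_sum]
    rw [sum_comm]
    have h2 : ∀ i ∈ range N, ∑ T ∈ B.powerset, ∑ j ∈ range N,
        cramerOn B T * (if Disjoint T (W i ∪ W j) then (1 : ℝ) else 0) ≤ a i + a i * m := by
      intro i hi
      rw [sum_comm]
      have h3 : ∀ j ∈ range N, ∑ T ∈ B.powerset,
          cramerOn B T * (if Disjoint T (W i ∪ W j) then (1 : ℝ) else 0) ≤
          (if j = i then a i else 0) + a i * a j := by
        intro j hj
        rw [hE1 _ (union_subset (hW i hi) (hW j hj))]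
        by_cases hij : j = i
        · subst hij
          rw [if_pos rfl, union_self, ← ha']
          have := mul_pos (ha0 j hj) (ha0 j hj)
          linarith
        · rw [if_neg hij, prod_union (hd i hi j hj (Ne.symm hij)), ← ha', ← ha']
          linarith
      refine (sum_le_sum h3).trans (le_of_eq ?_)
      rw [sum_add_distrib, sum_ite_eq' (range N) i, if_pos hi, ← mul_sum, ← hm]
    refine (sum_le_sum h2).trans (le_of_eq ?_)
    rw [sum_add_distrib, ← sum_mul, ← hm]
    ring
  have hvar : ∑ T ∈ B.powerset, cramerOn B T * (Z T - m) ^ 2 ≤ m := by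
    have h1 : ∀ T ∈ B.powerset, cramerOn B T * (Z T - m) ^ 2 =
        cramerOn B T * Z T ^ 2 - 2 * m * (cramerOn B T * Z T) + m ^ 2 * cramerOn B T := by
      intro T _; ring
    rw [sum_congr rfl h1, sum_add_distrib, sum_sub_distrib, ← mul_sum, ← mul_sum, hZ1, sum_cramerOn]
    nlinarith
  have h3 : ∑ T ∈ B.powerset with (∀ i ∈ range N, ¬ Disjoint T (W i)), cramerOn B T * (Z T - m) ^ 2 ≤ m := by
    refine le_trans (sum_le_sum_of_subset_of_nonneg (filter_subset _ _) ?_) hvar
    intro T hT _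
    exact mul_nonneg (hq T hT).le (sq_nonneg _)
  have h4 : ∑ T ∈ B.powerset with (∀ i ∈ range N, ¬ Disjoint T (W i)), cramerOn B T * (Z T - m) ^ 2 =
      m ^ 2 * ∑ T ∈ B.powerset with (∀ i ∈ range N, ¬ Disjoint T (W i)), cramerOn B T := by
    rw [mul_sum]
    refine sum_congr rfl (fun T hT => ?_)
    have h5 : Z T = 0 := by
      simp only [Z]
      refine sum_eq_zero (fun i hi => ?_)
      rw [if_neg ((mem_filter.1 hT).2 i hi)]
    rw [h5]; ring
  rw [h4] at h3
  obtain ⟨s, hs⟩ : ∃ s : ℝ, s = ∑ T ∈ B.powerset with (∀ i ∈ range N, ¬ Disjoint T (W i)), cramerOn B T :=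
    ⟨_, rfl⟩
  rw [← hs] at h3 ⊢
  have hs0 : 0 ≤ s := by
    rw [hs]
    exact sum_nonneg (fun T hT => (hq T (mem_filter.1 hT).1).le)
  have h5 : m * s ≤ 1 := by
    have : m * (m * s) ≤ m * 1 := by linarith
    exact le_of_mul_le_mul_left this hm0
  rw [le_div_iff₀ (by positivity)]
  nlinarith

end Pool.Agent.Q120.ET
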