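import Pool.Agent.H38.LR.T3997.Q120.ET.Basic

/-!
# Random sets, their laws on finite sets and the relative entropy
-/

set_option autoImplicit false

namespace Pool.Agent.Q120.ET

open Finset MeasureTheory Filter

variable {Ω : Type*} [MeasurableSpace Ω]

/-- `A` is a random set of integers. -/
def IsRandomSet (A : Ω → Set ℕ) : Prop := ∀ n, MeasurableSet {ω | n ∈ A ω}

/-- The probability of `A ∩ B = T`, for `T ⊆ B`. -/
noncomputable def lawOn (μ : Measure Ω) (A : Ω → Set ℕ) (B T : Finset ℕ) : ℝ :=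
  μ.real {ω | ∀ n ∈ B, (n ∈ A ω ↔ n ∈ T)}

/-- The relative entropy of the law of `A ∩ B` with respect to Cramér's model. -/
noncomputable def relEntropy (μ : Measure Ω) (A : Ω → Set ℕ) (B : Finset ℕ) : ℝ :=
  ∑ T ∈ B.powerset, lawOn μ A B T * Real.log (lawOn μ A B T / cramerOn B T)

theorem measurableSet_law {A : Ω → Set ℕ} (hA : IsRandomSet A) (B T : Finset ℕ) :
    MeasurableSet {ω | ∀ n ∈ B, (n ∈ A ω ↔ n ∈ T)} := by
  have h1 : {ω | ∀ n ∈ B, (n ∈ A ω ↔ n ∈ T)} = ⋂ n ∈ B, {ω | n ∈ A ω ↔ n ∈ T} := by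
    ext ω; simp
  rw [h1]
  refine Finset.measurableSet_biInter _ (fun n _ => ?_)
  by_cases hn : n ∈ T
  · have h2 : {ω | n ∈ A ω ↔ n ∈ T} = {ω | n ∈ A ω} := by ext ω; simp [hn]
    rw [h2]; exact hA n
  · have h2 : {ω | n ∈ A ω ↔ n ∈ T} = {ω | n ∈ A ω}ᶜ := by ext ω; simp [hn]
    rw [h2]; exact (hA n).compl

open Classical in
/-- The trace of `A` on `B`. -/
noncomputable def tr (A : Ω → Set ℕ) (B : Finset ℕ) (ω : Ω) : Finset ℕ := B.filter (fun n => n ∈ A ω)

theorem mem_tr {A : Ω → Set ℕ} {B : Finset ℕ} {ω : Ω} {n : ℕ} : n ∈ tr A B ω ↔ n ∈ B ∧ n ∈ A ω := by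
  classical
  unfold tr
  rw [mem_filter]

theorem law_set_eq (A : Ω → Set ℕ) {B T : Finset ℕ} (hT : T ⊆ B) :
    {ω | ∀ n ∈ B, (n ∈ A ω ↔ n ∈ T)} = {ω | tr A B ω = T} := by
  ext ω
  simp only [Set.mem_ofPred_eq]
  constructor
  · intro h
    ext n
    rw [mem_tr]
    constructor
    · intro hn
      exact (h n hn.1).1 hn.2
    · intro hn
      exact ⟨hT hn, (h n (hT hn)).2 hn⟩
  · intro h n hn
    rw [← h, mem_tr]
    tauto

variable {μ : Measure Ω} [IsProbabilityMeasure μ] {A : Ω → Set ℕ}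

theorem real_event (hA : IsRandomSet A) (B : Finset ℕ) (F : Finset ℕ → Prop) [DecidablePred F] :
    μ.real {ω | F (tr A B ω)} = ∑ T ∈ B.powerset with F T, lawOn μ A B T := by
  classical
  have h1 : {ω | F (tr A B ω)} = ⋃ T ∈ B.powerset.filter F, {ω | tr A B ω = T} := by
    ext ω
    simp only [Set.mem_ofPred_eq, Set.mem_iUnion, exists_prop, mem_filter, mem_powerset]
    constructor
    · intro h
      refine ⟨_, ⟨fun n hn => (mem_tr.1 hn).1, h⟩, rfl⟩
    · rintro ⟨T, ⟨_, h⟩, h2⟩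
      rw [h2]; exact h
  rw [h1, measureReal_biUnion_finset]
  · refine sum_congr rfl (fun T hT => ?_)
    rw [lawOn, law_set_eq A (mem_powerset.1 (mem_filter.1 hT).1)]
  · intro T _ T' _ hne
    rw [Function.onFun, Set.disjoint_left]
    intro ω h2 h3
    exact hne (h2.symm.trans h3)
  · intro T hT
    rw [← law_set_eq A (mem_powerset.1 (mem_filter.1 hT).1)]
    exact measurableSet_law hA B T

theorem sum_law (hA : IsRandomSet A) (B : Finset ℕ) : ∑ T ∈ B.powerset, lawOn μ A B T = 1 := by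
  have h1 := real_event (μ := μ) hA B (fun _ => True)
  rw [filter_true_of_mem (fun _ _ => trivial)] at h1
  rw [← h1]
  simp

theorem event_bound (hA : IsRandomSet A) {B : Finset ℕ} (hB : ∀ n ∈ B, 3 ≤ n)
    (F : Finset ℕ → Prop) [DecidablePred F] {u d q : ℝ} (hu : 0 < u)
    (hd : relEntropy μ A B ≤ d) (hq : ∑ T ∈ B.powerset with F T, cramerOn B T ≤ q) :
    μ.real {ω | F (tr A B ω)} ≤ (d + Real.exp u * q) / u := by
  have h1 := entropy_bound hB (lawOn μ A B) (fun T _ => measureReal_nonneg) (sum_law hA B) F u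
  rw [← real_event hA B F] at h1
  rw [le_div_iff₀ hu]
  have h2 : Real.exp u * ∑ T ∈ B.powerset with F T, cramerOn B T ≤ Real.exp u * q :=
    mul_le_mul_of_nonneg_left hq (Real.exp_pos u).le
  unfold relEntropy at hd
  linarith

/-- The dyadic block `[2 ^ k, 2 ^ (k + 1))`. -/
def block (k : ℕ) : Finset ℕ := Ico (2 ^ k) (2 ^ (k + 1))

theorem three_le_of_mem_block {k n : ℕ} (hk : 2 ≤ k) (hn : n ∈ block k) : 3 ≤ n := by
  rw [block, mem_Ico] at hn
  have : 2 ^ 2 ≤ 2 ^ k := Nat.pow_le_pow_right (by norm_num) hk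
  omega

theorem prod_window_le {k : ℕ} (hk : 2 ≤ k) {W : Finset ℕ} (hW : W ⊆ block k) :
    ∏ n ∈ W, (1 - 1 / Real.log n) ≤ Real.exp (-(W.card / ((k + 1) * Real.log 2))) := by
  have hlog2 : 0 < Real.log 2 := Real.log_pos (by norm_num)
  have h1 : ∀ n ∈ W, 1 - 1 / Real.log n ≤ Real.exp (-(1 / ((k + 1) * Real.log 2))) := by
    intro n hn
    have h2 := mem_Ico.1 (show n ∈ Ico (2 ^ k) (2 ^ (k + 1)) from hW hn)
    have h3 := one_lt_log (three_le_of_mem_block hk (hW hn))
    have h4 : Real.log n ≤ (k + 1) * Real.log 2 := by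
      have h5 : (n : ℝ) ≤ (2 : ℝ) ^ (k + 1) := by exact_mod_cast h2.2.le
      have h6 : (0 : ℝ) < n := by
        have : 0 < n := by have := three_le_of_mem_block hk (hW hn); omega
        exact_mod_cast this
      have := Real.log_le_log h6 h5
      rw [Real.log_pow] at this
      push_cast at this
      exact this
    have h5 : 1 / ((k + 1) * Real.log 2) ≤ 1 / Real.log n :=
      one_div_le_one_div_of_le (by linarith) h4
    have := Real.one_sub_le_exp_neg (1 / ((k + 1) * Real.log 2))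
    linarith
  have h2 := Finset.prod_le_prod (f := fun n : ℕ => 1 - 1 / Real.log n)
    (g := fun _ => Real.exp (-(1 / ((k + 1) * Real.log 2)))) (s := W) (fun n hn => by
      have h3 := one_lt_log (three_le_of_mem_block hk (hW hn))
      have : 1 / Real.log n < 1 := by rw [div_lt_one (by linarith)]; exact h3
      linarith) h1
  refine h2.trans (le_of_eq ?_)
  rw [prod_const, ← Real.exp_nat_mul]
  congr 1
  ring

theorem le_prod_window {k : ℕ} (hk : 3 ≤ k) {W : Finset ℕ} (hW : W ⊆ block k) {δ : ℝ} (hδ : 0 < δ)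
    (hδk : 1 + δ ≤ δ * (k * Real.log 2)) :
    Real.exp (-((1 + δ) * W.card / (k * Real.log 2))) ≤ ∏ n ∈ W, (1 - 1 / Real.log n) := by
  have hlog2 : 0 < Real.log 2 := Real.log_pos (by norm_num)
  have hk0 : (0 : ℝ) < k := by
    have : 0 < k := by omega
    exact_mod_cast this
  have hkl : 0 < k * Real.log 2 := by positivity
  have h1 : ∀ n ∈ W, Real.exp (-((1 + δ) / (k * Real.log 2))) ≤ 1 - 1 / Real.log n := by
    intro n hn
    have h2 := mem_Ico.1 (show n ∈ Ico (2 ^ k) (2 ^ (k + 1)) from hW hn)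
    have h4 : k * Real.log 2 ≤ Real.log n := by
      have h5 : (2 : ℝ) ^ k ≤ (n : ℝ) := by exact_mod_cast h2.1
      have := Real.log_le_log (by positivity) h5
      rwa [Real.log_pow] at this
    obtain ⟨t, ht⟩ : ∃ t : ℝ, t = 1 / (k * Real.log 2) := ⟨_, rfl⟩
    have ht0 : 0 < t := by rw [ht]; positivity
    have htδ : (1 + δ) * t ≤ δ := by
      rw [ht, mul_one_div, div_le_iff₀ hkl]
      exact hδk
    have ht1 : t < 1 := by nlinarith
    have h5 : 1 / Real.log n ≤ t := by
      rw [ht]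
      exact one_div_le_one_div_of_le hkl h4
    have h6 : Real.exp (-((1 + δ) * t)) ≤ 1 - t := by
      rw [← Real.le_log_iff_exp_le (by linarith)]
      have h7 := Real.one_sub_inv_le_log_of_pos (show 0 < 1 - t by linarith)
      refine le_trans ?_ h7
      have h8 : (1 - t)⁻¹ ≤ 1 + (1 + δ) * t := by
        rw [inv_le_iff_one_le_mul₀ (by linarith)]
        nlinarith
      linarith
    have h7 : (1 + δ) / (k * Real.log 2) = (1 + δ) * t := by rw [ht]; ring
    rw [h7]
    linarith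
  have h2 := Finset.prod_le_prod (f := fun _ : ℕ => Real.exp (-((1 + δ) / (k * Real.log 2))))
    (g := fun n : ℕ => 1 - 1 / Real.log n) (s := W) (fun n hn => by positivity) h1
  refine le_trans (le_of_eq ?_) h2
  rw [prod_const, ← Real.exp_nat_mul]
  congr 1
  ring

end Pool.Agent.Q120.ET
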