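import Pool.Agent.H38.LR.T3997.Q120.ET.Law

/-!
# All gaps are at most `f` if the entropies are summable
-/

set_option autoImplicit false

namespace Pool.Agent.Q120.ET

open Finset MeasureTheory Filter

/-- Length of the windows. -/
noncomputable def hh (f : ℕ → ℝ) (k : ℕ) : ℕ := ⌊f k⌋₊

/-- Half of the length of the windows. -/
noncomputable def gg (f : ℕ → ℝ) (k : ℕ) : ℕ := ⌊f k⌋₊ / 2

/-- The exceptional configurations in the block `k`. -/
def Bad (f : ℕ → ℝ) (k : ℕ) (T : Finset ℕ) : Prop :=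
  (∃ x ∈ block k, Ioc x (x + hh f k) ⊆ block k ∧ Disjoint T (Ioc x (x + hh f k))) ∨
  Disjoint T (Ico (2 ^ (k + 1) - gg f k) (2 ^ (k + 1))) ∨
  Disjoint T (Ico (2 ^ k) (2 ^ k + gg f (k - 1)))

theorem sum_bad_le {f : ℕ → ℝ} {k : ℕ} (hk : 2 ≤ k) (h1 : gg f k ≤ 2 ^ k) (h2 : gg f (k - 1) ≤ 2 ^ k)
    [DecidablePred (Bad f k)] :
    ∑ T ∈ (block k).powerset with Bad f k T, cramerOn (block k) T ≤
      2 ^ k * Real.exp (-(hh f k / ((k + 1) * Real.log 2))) +
      Real.exp (-(gg f k / ((k + 1) * Real.log 2))) +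
      Real.exp (-(gg f (k - 1) / ((k + 1) * Real.log 2))) := by
  classical
  have hB : ∀ n ∈ block k, 3 ≤ n := fun n hn => three_le_of_mem_block hk hn
  have hq : ∀ T ∈ (block k).powerset, 0 < cramerOn (block k) T :=
    fun T hT => cramerOn_pos hB (mem_powerset.1 hT)
  obtain ⟨X, hX⟩ : ∃ X : Finset ℕ, X = (block k).filter (fun x => Ioc x (x + hh f k) ⊆ block k) := ⟨_, rfl⟩
  have hfree : ∀ W : Finset ℕ, W ⊆ block k →
      ∑ T ∈ (block k).powerset, cramerOn (block k) T * (if Disjoint T W then 1 else 0) ≤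
        Real.exp (-(W.card / ((k + 1) * Real.log 2))) := by
    intro W hW
    refine le_trans (le_of_eq ?_) (prod_window_le hk hW)
    rw [← sum_free hW, sum_filter]
    refine sum_congr rfl (fun T _ => ?_)
    split_ifs <;> ring
  have hpt : ∀ T ∈ (block k).powerset, (if Bad f k T then cramerOn (block k) T else 0) ≤
      ∑ x ∈ X, cramerOn (block k) T * (if Disjoint T (Ioc x (x + hh f k)) then 1 else 0) +
      cramerOn (block k) T * (if Disjoint T (Ico (2 ^ (k + 1) - gg f k) (2 ^ (k + 1))) then 1 else 0) +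
      cramerOn (block k) T * (if Disjoint T (Ico (2 ^ k) (2 ^ k + gg f (k - 1))) then 1 else 0) := by
    intro T hT
    have hqT := hq T hT
    have ht1 : 0 ≤ ∑ x ∈ X, cramerOn (block k) T * (if Disjoint T (Ioc x (x + hh f k)) then (1 : ℝ) else 0) :=
      sum_nonneg (fun x _ => by split_ifs <;> simp [hqT.le])
    have ht2 : 0 ≤ cramerOn (block k) T *
        (if Disjoint T (Ico (2 ^ (k + 1) - gg f k) (2 ^ (k + 1))) then (1 : ℝ) else 0) := by
      split_ifs <;> simp [hqT.le]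
    have ht3 : 0 ≤ cramerOn (block k) T *
        (if Disjoint T (Ico (2 ^ k) (2 ^ k + gg f (k - 1))) then (1 : ℝ) else 0) := by
      split_ifs <;> simp [hqT.le]
    by_cases hbad : Bad f k T
    · rw [if_pos hbad]
      rcases hbad with ⟨x, hx1, hx2, hx3⟩ | h | h
      · have hxX : x ∈ X := by rw [hX, mem_filter]; exact ⟨hx1, hx2⟩
        have h4 := single_le_sum (f := fun x => cramerOn (block k) T *
          (if Disjoint T (Ioc x (x + hh f k)) then (1 : ℝ) else 0)) (fun x _ => by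
            split_ifs <;> simp [hqT.le]) hxX
        rw [if_pos hx3, mul_one] at h4
        linarith
      · have h5 : cramerOn (block k) T *
            (if Disjoint T (Ico (2 ^ (k + 1) - gg f k) (2 ^ (k + 1))) then (1 : ℝ) else 0) =
            cramerOn (block k) T := by rw [if_pos h, mul_one]
        linarith
      · have h5 : cramerOn (block k) T *
            (if Disjoint T (Ico (2 ^ k) (2 ^ k + gg f (k - 1))) then (1 : ℝ) else 0) =
            cramerOn (block k) T := by rw [if_pos h, mul_one]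
        linarith
    · rw [if_neg hbad]
      linarith
  rw [sum_filter]
  refine (sum_le_sum hpt).trans ?_
  rw [sum_add_distrib, sum_add_distrib]
  refine add_le_add (add_le_add ?_ ?_) ?_
  · rw [sum_comm]
    have h3 : ∀ x ∈ X, ∑ T ∈ (block k).powerset,
        cramerOn (block k) T * (if Disjoint T (Ioc x (x + hh f k)) then 1 else 0) ≤
        Real.exp (-(hh f k / ((k + 1) * Real.log 2))) := by
      intro x hx
      rw [hX, mem_filter] at hx
      have := hfree _ hx.2
      rwa [Nat.card_Ioc, Nat.add_sub_cancel_left] at this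
    refine (sum_le_sum h3).trans ?_
    rw [sum_const, nsmul_eq_mul]
    apply mul_le_mul_of_nonneg_right _ (Real.exp_pos _).le
    have h4 : X.card ≤ 2 ^ k := by
      rw [hX]
      refine (card_filter_le _ _).trans ?_
      rw [block, Nat.card_Ico, pow_succ]
      omega
    exact_mod_cast h4
  · have h3 := hfree (Ico (2 ^ (k + 1) - gg f k) (2 ^ (k + 1))) (by
      intro n hn
      rw [block, mem_Ico]
      rw [mem_Ico] at hn
      rw [pow_succ] at hn ⊢
      omega)
    rw [Nat.card_Ico] at h3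
    have h4 : 2 ^ (k + 1) - (2 ^ (k + 1) - gg f k) = gg f k := by
      rw [pow_succ]; omega
    rwa [h4] at h3
  · have h3 := hfree (Ico (2 ^ k) (2 ^ k + gg f (k - 1))) (by
      intro n hn
      rw [block, mem_Ico]
      rw [mem_Ico] at hn
      rw [pow_succ]
      omega)
    rw [Nat.card_Ico] at h3
    rwa [Nat.add_sub_cancel_left] at h3

/-- The conditions on the gap function. -/
structure GapFunction (f : ℕ → ℝ) : Prop where
  mono : Monotone f
  growth : ∃ C : ℝ, ∀ᶠ k : ℕ in atTop, f (k + 1) ≤ C * f k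
  lower : ∃ ε : ℝ, 0 < ε ∧ ∀ᶠ k : ℕ in atTop, (1 + ε) * Real.log (2 ^ k) ^ 2 ≤ f k
  upper : ∀ᶠ k : ℕ in atTop, f k ≤ 2 ^ ((k : ℝ) / 2)

theorem bad_small {f : ℕ → ℝ} (hf : GapFunction f) :
    ∃ c : ℝ, 0 < c ∧ ∀ᶠ k : ℕ in atTop, ∀ [DecidablePred (Bad f k)],
      ∑ T ∈ (block k).powerset with Bad f k T, cramerOn (block k) T ≤ Real.exp (-(c * (f k / k))) := by
  obtain ⟨C0, hC0⟩ := hf.growth
  obtain ⟨ε, hε, hl⟩ := hf.lower
  obtain ⟨C, hC1, hC⟩ : ∃ C : ℝ, 1 ≤ C ∧ ∀ᶠ k : ℕ in atTop, f (k + 1) ≤ C * f k := by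
    refine ⟨max C0 1, le_max_right _ _, ?_⟩
    filter_upwards [hC0, hl] with k h1 h2
    have h3 : 0 ≤ f k := le_trans (by positivity) h2
    exact h1.trans (mul_le_mul_of_nonneg_right (le_max_left _ _) h3)
  have hlog2 : 0 < Real.log 2 := Real.log_pos (by norm_num)
  have hlog2' : Real.log 2 ≤ 1 := by
    have := Real.log_two_lt_d9; linarith
  have hlog2'' : (1 : ℝ) / 2 ≤ Real.log 2 := by
    have := Real.log_two_gt_d9; linarith
  obtain ⟨c1, hc1⟩ : ∃ c1 : ℝ, c1 = min (ε / (2 * (1 + ε))) (1 / (4 * C)) := ⟨_, rfl⟩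
  have hc1p : 0 < c1 := by rw [hc1]; apply lt_min <;> positivity
  have hc1a : c1 ≤ ε / (2 * (1 + ε)) := by rw [hc1]; exact min_le_left _ _
  have hc1b : c1 ≤ 1 / (4 * C) := by rw [hc1]; exact min_le_right _ _
  have hc1c : c1 ≤ 1 / 4 := by
    refine hc1b.trans ?_
    apply one_div_le_one_div_of_le (by norm_num)
    linarith
  refine ⟨c1 / 2, by positivity, ?_⟩
  have hCpred : ∀ᶠ k : ℕ in atTop, 1 ≤ k ∧ f k ≤ C * f (k - 1) := by
    obtain ⟨k0, hk0⟩ := eventually_atTop.1 hC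
    filter_upwards [eventually_ge_atTop (k0 + 1)] with k hk
    refine ⟨by omega, ?_⟩
    have := hk0 (k - 1) (by omega)
    rwa [Nat.sub_add_cancel (by omega)] at this
  have hupred : ∀ᶠ k : ℕ in atTop, f (k - 1) ≤ 2 ^ ((k : ℝ) / 2) := by
    filter_upwards [hf.upper] with k hk
    exact (hf.mono (Nat.sub_le k 1)).trans hk
  obtain ⟨k1, hk1⟩ := exists_nat_ge (2 * (1 + ε) / ε)
  obtain ⟨k2, hk2⟩ := exists_nat_ge (24 / c1)
  filter_upwards [hl, hCpred, hf.upper, hupred, eventually_ge_atTop (k1 + k2 + 2)]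
    with k hk1' hk2' hk3 hk4 hk5 _
  obtain ⟨hk6, hk7⟩ := hk2'
  have hkpos : (0 : ℝ) < k := by
    have : 0 < k := by omega
    exact_mod_cast this
  have hk1r : 2 * (1 + ε) / ε ≤ k := by
    have : (k1 : ℝ) ≤ k := by
      have : k1 ≤ k := by omega
      exact_mod_cast this
    linarith
  have hk2r : 24 / c1 ≤ k := by
    have : (k2 : ℝ) ≤ k := by
      have : k2 ≤ k := by omega
      exact_mod_cast this
    linarith
  have hkone : (1 : ℝ) ≤ k := by
    have : 1 ≤ k := by omega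
    exact_mod_cast this
  rw [Real.log_pow] at hk1'
  obtain ⟨φ, hφ⟩ : ∃ φ : ℝ, φ = f k / k := ⟨_, rfl⟩
  have hfφ : f k = φ * k := by rw [hφ]; field_simp
  have hφ1 : (1 + ε) * (k * Real.log 2 ^ 2) ≤ φ := by
    have h1 : (1 + ε) * (k * Real.log 2 ^ 2) * k ≤ φ * k := by
      rw [← hfφ]
      calc (1 + ε) * (k * Real.log 2 ^ 2) * k = (1 + ε) * (k * Real.log 2) ^ 2 := by ring
        _ ≤ f k := hk1'
    exact le_of_mul_le_mul_right h1 hkpos
  have hφ0 : 0 < φ := lt_of_lt_of_le (by positivity) hφ1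
  have hf0 : 0 < f k := by rw [hfφ]; positivity
  have hφ2 : 6 ≤ c1 * φ := by
    have h1 : (k : ℝ) * (1 / 4) ≤ φ := by
      refine le_trans ?_ hφ1
      have h2 : (1 : ℝ) / 4 ≤ Real.log 2 ^ 2 := by nlinarith
      have h3 : (k : ℝ) * (1 / 4) ≤ k * Real.log 2 ^ 2 := mul_le_mul_of_nonneg_left h2 hkpos.le
      have h4 : 0 ≤ ε * (k * Real.log 2 ^ 2) := by positivity
      linarith
    have h2 : c1 * (24 / c1 * (1 / 4)) ≤ c1 * φ := by
      apply mul_le_mul_of_nonneg_left _ hc1p.le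
      refine le_trans ?_ h1
      exact mul_le_mul_of_nonneg_right hk2r (by norm_num)
    have h3 : c1 * (24 / c1 * (1 / 4)) = 6 := by field_simp; norm_num
    linarith
  have hfl : (k + 1) * Real.log 2 > 0 := by positivity
  have hfl1 : 1 ≤ (k + 1) * Real.log 2 := by nlinarith
  have hkk : φ * k / ((k + 1) * Real.log 2) ≥ φ * (k / (k + 1)) := by
    rw [ge_iff_le, le_div_iff₀ hfl]
    have h1 : φ * (k / (k + 1)) * ((k + 1) * Real.log 2) = φ * k * Real.log 2 := by field_simp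
    rw [h1]
    have : φ * k * Real.log 2 ≤ φ * k * 1 := mul_le_mul_of_nonneg_left hlog2' (by positivity)
    linarith
  have hkhalf : (1 : ℝ) / 2 ≤ k / (k + 1) := by
    rw [div_le_div_iff₀ (by norm_num) (by positivity)]
    linarith
  -- sizes of the windows
  have hup : ∀ t : ℝ, t ≤ 2 ^ ((k : ℝ) / 2) → ⌊t⌋₊ / 2 ≤ 2 ^ k := by
    intro t ht
    have h1 : ⌊t⌋₊ ≤ 2 ^ k := by
      apply Nat.floor_le_of_le
      refine ht.trans ?_
      push_cast
      rw [← Real.rpow_natCast]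
      exact Real.rpow_le_rpow_of_exponent_le (by norm_num) (by linarith)
    omega
  refine (sum_bad_le (by omega) (hup _ hk3) (hup _ hk4)).trans ?_
  have hhk : f k - 1 ≤ hh f k := by
    have := Nat.lt_floor_add_one (f k)
    unfold hh; linarith
  have half : ∀ t : ℝ, t / 2 - 1 ≤ ((⌊t⌋₊ / 2 : ℕ) : ℝ) := by
    intro t
    have h1 := Nat.lt_floor_add_one t
    have h2 : ⌊t⌋₊ ≤ 2 * (⌊t⌋₊ / 2) + 1 := by omega
    have h3 : (⌊t⌋₊ : ℝ) ≤ 2 * ((⌊t⌋₊ / 2 : ℕ) : ℝ) + 1 := by exact_mod_cast h2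
    linarith
  have e1 : (2 : ℝ) ^ k * Real.exp (-(hh f k / ((k + 1) * Real.log 2))) ≤ Real.exp (1 - c1 * φ) := by
    have h1 : (2 : ℝ) ^ k = Real.exp (k * Real.log 2) := by
      rw [Real.exp_nat_mul, Real.exp_log (by norm_num)]
    rw [h1, ← Real.exp_add]
    apply Real.exp_le_exp.2
    have h2 : (f k - 1) / ((k + 1) * Real.log 2) ≤ hh f k / ((k + 1) * Real.log 2) :=
      div_le_div_of_nonneg_right hhk hfl.le
    have h3 : (f k - 1) / ((k + 1) * Real.log 2) ≥ f k / ((k + 1) * Real.log 2) - 1 := by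
      rw [sub_div]
      have : 1 / ((k + 1) * Real.log 2) ≤ 1 := by rw [div_le_one hfl]; exact hfl1
      linarith
    -- `k log 2 ≤ φ / ((1 + ε) log 2)`
    have h4 : (1 + ε) * Real.log 2 * (k * Real.log 2) ≤ φ := by
      calc (1 + ε) * Real.log 2 * (k * Real.log 2) = (1 + ε) * (k * Real.log 2 ^ 2) := by ring
        _ ≤ φ := hφ1
    have h5 : k * Real.log 2 ≤ φ / ((1 + ε) * Real.log 2) := by
      rw [le_div_iff₀ (by positivity)]; linarith
    have h6 : f k / ((k + 1) * Real.log 2) - φ / ((1 + ε) * Real.log 2) =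
        φ / Real.log 2 * (k / (k + 1) - 1 / (1 + ε)) := by
      rw [hfφ]; field_simp
    have h7 : ε / (2 * (1 + ε)) ≤ k / (k + 1) - 1 / (1 + ε) := by
      have h8 : (k : ℝ) / (k + 1) = 1 - 1 / (k + 1) := by field_simp; ring
      have h9 : 1 / ((k : ℝ) + 1) ≤ ε / (2 * (1 + ε)) := by
        rw [div_le_div_iff₀ (by positivity) (by positivity)]
        have := mul_le_mul_of_nonneg_left hk1r hε.le
        have h10 : ε * (2 * (1 + ε) / ε) = 2 * (1 + ε) := by field_simp
        rw [h10] at this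
        linarith
      have h10 : 1 - 1 / (1 + ε) = 2 * (ε / (2 * (1 + ε))) := by field_simp; ring
      rw [h8]
      linarith
    have h8 : φ * (ε / (2 * (1 + ε))) ≤ φ / Real.log 2 * (k / (k + 1) - 1 / (1 + ε)) := by
      have h9 : φ ≤ φ / Real.log 2 := by
        rw [le_div_iff₀ hlog2]
        nlinarith
      have h10 : 0 ≤ ε / (2 * (1 + ε)) := by positivity
      calc φ * (ε / (2 * (1 + ε))) ≤ φ / Real.log 2 * (ε / (2 * (1 + ε))) := by gcongr
        _ ≤ _ := by gcongr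
    have h9 : c1 * φ ≤ φ * (ε / (2 * (1 + ε))) := by
      rw [mul_comm]
      exact mul_le_mul_of_nonneg_left hc1a hφ0.le
    linarith
  have e2 : ∀ g : ℕ, φ * k * (1 / (2 * C)) - 1 ≤ (g : ℝ) →
      Real.exp (-(g / ((k + 1) * Real.log 2))) ≤ Real.exp (1 - c1 * φ) := by
    intro g hg
    apply Real.exp_le_exp.2
    have h1 : (φ * k * (1 / (2 * C)) - 1) / ((k + 1) * Real.log 2) ≤ g / ((k + 1) * Real.log 2) :=
      div_le_div_of_nonneg_right hg hfl.le
    have h2 : (φ * k * (1 / (2 * C)) - 1) / ((k + 1) * Real.log 2) ≥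
        φ * k / ((k + 1) * Real.log 2) * (1 / (2 * C)) - 1 := by
      rw [sub_div]
      have h3 : 1 / ((k + 1) * Real.log 2) ≤ 1 := by rw [div_le_one hfl]; exact hfl1
      have h4 : φ * k * (1 / (2 * C)) / ((k + 1) * Real.log 2) =
        φ * k / ((k + 1) * Real.log 2) * (1 / (2 * C)) := by ring
      linarith
    have h3 : φ * k / ((k + 1) * Real.log 2) * (1 / (2 * C)) ≥ c1 * φ := by
      have h4 : 0 ≤ 1 / (2 * C) := by positivity
      have h5 : φ * (1 / 2) ≤ φ * (k / (k + 1)) := mul_le_mul_of_nonneg_left hkhalf hφ0.le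
      have h6 : φ * (1 / 2) * (1 / (2 * C)) ≤ φ * k / ((k + 1) * Real.log 2) * (1 / (2 * C)) :=
        mul_le_mul_of_nonneg_right (h5.trans hkk) h4
      have h7 : φ * (1 / 2) * (1 / (2 * C)) = 1 / (4 * C) * φ := by ring
      have h8 : c1 * φ ≤ 1 / (4 * C) * φ := mul_le_mul_of_nonneg_right hc1b hφ0.le
      linarith
    linarith
  have hC2 : 1 / (2 * C) ≤ 1 / 2 := one_div_le_one_div_of_le (by norm_num) (by linarith)
  have e3 := e2 (gg f k) (by
    have h1 := half (f k)
    have h2 : φ * k * (1 / (2 * C)) ≤ φ * k * (1 / 2) := mul_le_mul_of_nonneg_left hC2 (by positivity)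
    unfold gg
    rw [hfφ] at h1 ⊢
    linarith)
  have e4 := e2 (gg f (k - 1)) (by
    have h1 := half (f (k - 1))
    have h2 : φ * k * (1 / (2 * C)) ≤ f (k - 1) / 2 := by
      rw [← hfφ, mul_one_div, div_le_div_iff₀ (by positivity) (by norm_num)]
      nlinarith
    unfold gg
    linarith)
  have e5 : 3 * Real.exp (1 - c1 * φ) ≤ Real.exp (-(c1 / 2 * φ)) := by
    have h1 : (3 : ℝ) ≤ Real.exp 2 := by
      have h2 := Real.add_one_le_exp (1 : ℝ)
      have h3 : Real.exp 2 = Real.exp 1 * Real.exp 1 := by rw [← Real.exp_add]; norm_num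
      rw [h3]; nlinarith
    calc 3 * Real.exp (1 - c1 * φ) ≤ Real.exp 2 * Real.exp (1 - c1 * φ) := by gcongr
      _ = Real.exp (2 + (1 - c1 * φ)) := by rw [← Real.exp_add]
      _ ≤ Real.exp (-(c1 / 2 * φ)) := Real.exp_le_exp.2 (by linarith)
  rw [← hφ]
  linarith

end Pool.Agent.Q120.ET
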